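import Mathlib

/-!
Lattice embeddings of `Sub_R(R^3)` into subspace lattices over division rings:
the von Neumann frame argument.
-/

namespace Pool.Agent.W411.Frame

open Submodule hiding map_sup map_inf

section identities

variable {R : Type*} [Ring R]

/-- The cyclic submodule generated by a vector. -/
def cyc (v : Fin 3 → R) : Submodule R (Fin 3 → R) := span R {v}

theorem mem_cyc {v x : Fin 3 → R} : x ∈ cyc v ↔ ∃ a : R, a • v = x := mem_span_singleton

theorem cyc_le {v : Fin 3 → R} {M : Submodule R (Fin 3 → R)} : cyc v ≤ M ↔ v ∈ M := by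
  rw [cyc, span_singleton_le_iff_mem]

theorem self_mem_cyc (v : Fin 3 → R) : v ∈ cyc v := mem_span_singleton_self v

/-- `e1 - k e2`. -/
def g (k : ℕ) : Fin 3 → R := ![1, -(k : R), 0]

theorem id1 : cyc (![1, 0, 0] : Fin 3 → R) ≤ cyc ![0, 1, 0] ⊔ cyc ![1, -1, 0] := by
  rw [cyc_le, mem_sup]
  refine ⟨_, self_mem_cyc _, _, self_mem_cyc _, ?_⟩
  ext i; fin_cases i <;> simp

theorem id7 : cyc (![0, 1, 0] : Fin 3 → R) ≤ cyc ![1, 0, 0] ⊔ cyc ![1, -1, 0] := by
  rw [cyc_le, mem_sup]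
  refine ⟨_, self_mem_cyc _, -![1, -1, 0], neg_mem (self_mem_cyc _), ?_⟩
  ext i; fin_cases i <;> simp

theorem id2 : cyc (![0, 1, 0] : Fin 3 → R) ≤ cyc ![0, 0, 1] ⊔ cyc ![0, 1, -1] := by
  rw [cyc_le, mem_sup]
  refine ⟨_, self_mem_cyc _, _, self_mem_cyc _, ?_⟩
  ext i; fin_cases i <;> simp

theorem id3 : (cyc (![1, -1, 0] : Fin 3 → R) ⊔ cyc ![0, 1, -1]) ⊓ (cyc ![1, 0, 0] ⊔ cyc ![0, 0, 1])
    ≤ cyc ![1, 0, -1] := by
  intro x hx
  obtain ⟨h1, h2⟩ := mem_inf.mp hx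
  rw [mem_sup] at h1 h2
  obtain ⟨a, ha, b, hb, rfl⟩ := h1
  obtain ⟨c, hc, d, hd, h⟩ := h2
  rw [mem_cyc] at *
  obtain ⟨a, rfl⟩ := ha
  obtain ⟨b, rfl⟩ := hb
  obtain ⟨c, rfl⟩ := hc
  obtain ⟨d, rfl⟩ := hd
  have h1 := congrFun h 1
  simp at h1
  have hab : a = b := by
    have : 0 = -a + b := by simpa using h1
    have := neg_add_eq_zero.mp this.symm
    exact this
  subst hab
  refine ⟨a, ?_⟩
  ext i; fin_cases i <;> simp

theorem id4 (k : ℕ) : (((cyc (g k : Fin 3 → R) ⊔ cyc ![0, 0, 1]) ⊓ (cyc ![1, 0, -1] ⊔ cyc ![0, 1, 0]))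
      ⊔ cyc ![0, 1, -1]) ⊓ (cyc ![1, 0, 0] ⊔ cyc ![0, 1, 0]) ≤ cyc (g (k + 1)) := by
  intro x hx
  obtain ⟨h1, h2⟩ := mem_inf.mp hx
  rw [mem_sup] at h1 h2
  obtain ⟨y, hy, b, hb, rfl⟩ := h1
  obtain ⟨c, hc, d, hd, h⟩ := h2
  obtain ⟨hy1, hy2⟩ := mem_inf.mp hy
  rw [mem_sup] at hy1 hy2
  obtain ⟨s, hs, t, ht, rfl⟩ := hy1
  obtain ⟨p, hp, q, hq, h'⟩ := hy2
  rw [mem_cyc] at hb hc hd hs ht hp hq
  obtain ⟨b, rfl⟩ := hb
  obtain ⟨c, rfl⟩ := hc
  obtain ⟨d, rfl⟩ := hd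
  obtain ⟨s, rfl⟩ := hs
  obtain ⟨t, rfl⟩ := ht
  obtain ⟨p, rfl⟩ := hp
  obtain ⟨q, rfl⟩ := hq
  have e0 := congrFun h' 0
  have e2 := congrFun h' 2
  have e3 := congrFun h 2
  simp [g] at e0 e2 e3
  subst e0
  subst e2
  have hb : b = -p := by
    have : 0 = -p + -b := by simpa using e3
    have h3 : b + p = 0 := by
      have h4 := congrArg Neg.neg this
      simp at h4
      exact h4.symm
    exact eq_neg_of_add_eq_zero_left h3
  subst hb
  rw [mem_cyc]
  refine ⟨p, ?_⟩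
  ext i; fin_cases i
  · simp [g]
  · simp [g, mul_add]
    try abel
  · simp [g]

theorem id6 : cyc (![1, 0, 0] : Fin 3 → R) ⊓ cyc ![0, 1, 0] ≤ ⊥ := by
  intro x hx
  obtain ⟨h1, h2⟩ := mem_inf.mp hx
  rw [mem_cyc] at h1 h2
  obtain ⟨a, rfl⟩ := h1
  obtain ⟨b, h⟩ := h2
  rw [mem_bot]
  have h0 := congrFun h 0
  simp at h0
  ext i; fin_cases i <;> simp [← h0]

end identities

section embedding

variable {R : Type*} [Ring R] {D : Type*} [DivisionRing D] {V : Type*} [AddCommGroup V] [Module D V]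

theorem key (f : LatticeHom (Submodule R (Fin 3 → R)) (Submodule D V)) {x y : V}
    (hx : x ∈ f (cyc ![1, 0, 0])) (hy : y ∈ f (cyc ![0, 1, 0]))
    (hxy : x - y ∈ f (cyc ![1, -1, 0])) (k : ℕ) : x - k • y ∈ f (cyc (g k)) := by
  have mono : Monotone f := OrderHomClass.mono f
  obtain ⟨z, hz, w, hw, hzw⟩ : ∃ z ∈ f (cyc ![0, 0, 1]), ∃ w ∈ f (cyc ![0, 1, -1]), z + w = y := by
    have h := mono (id2 (R := R)) hy
    rw [map_sup, mem_sup] at h
    exact h
  have hyz : y - z ∈ f (cyc ![0, 1, -1]) := by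
    have : y - z = w := by rw [← hzw]; abel
    rw [this]; exact hw
  have hxz : x - z ∈ f (cyc ![1, 0, -1]) := by
    apply mono (id3 (R := R))
    rw [map_inf, map_sup, map_sup, mem_inf]
    constructor
    · have : x - z = (x - y) + (y - z) := by abel
      rw [this]
      exact add_mem_sup hxy hyz
    · rw [sub_eq_add_neg]
      exact add_mem_sup hx (neg_mem hz)
  induction k with
  | zero =>
    have : (g 0 : Fin 3 → R) = ![1, 0, 0] := by
      ext i; fin_cases i <;> simp [g]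
    rw [this]
    simpa using hx
  | succ k ih =>
    apply mono (id4 (R := R) k)
    rw [map_inf, map_sup, map_inf, map_sup, map_sup, map_sup, mem_inf]
    constructor
    · have : x - (k + 1) • y = (x - k • y - z) + (-(y - z)) := by
        rw [succ_nsmul]; abel
      rw [this]
      refine add_mem_sup ?_ (neg_mem hyz)
      rw [mem_inf]
      constructor
      · rw [sub_eq_add_neg]
        exact add_mem_sup ih (neg_mem hz)
      · have : x - k • y - z = (x - z) + (-(k • y)) := by abel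
        rw [this]
        exact add_mem_sup hxz (neg_mem (nsmul_mem hy k))
    · rw [sub_eq_add_neg]
      exact add_mem_sup hx (neg_mem (nsmul_mem hy _))

theorem exists_left (f : LatticeHom (Submodule R (Fin 3 → R)) (Submodule D V)) {y : V}
    (hy : y ∈ f (cyc ![0, 1, 0])) :
    ∃ x ∈ f (cyc ![1, 0, 0]), x - y ∈ f (cyc (![1, -1, 0] : Fin 3 → R)) := by
  have mono : Monotone f := OrderHomClass.mono f
  have h := mono (id7 (R := R)) hy
  rw [map_sup, mem_sup] at h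
  obtain ⟨x, hx, c, hc, rfl⟩ := h
  refine ⟨x, hx, ?_⟩
  have : x - (x + c) = -c := by abel
  rw [this]
  exact neg_mem hc

theorem exists_right (f : LatticeHom (Submodule R (Fin 3 → R)) (Submodule D V)) {x : V}
    (hx : x ∈ f (cyc ![1, 0, 0])) :
    ∃ y ∈ f (cyc ![0, 1, 0]), x - y ∈ f (cyc (![1, -1, 0] : Fin 3 → R)) := by
  have mono : Monotone f := OrderHomClass.mono f
  have h := mono (id1 (R := R)) hx
  rw [map_sup, mem_sup] at h
  obtain ⟨y, hy, c, hc, rfl⟩ := h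
  refine ⟨y, hy, ?_⟩
  have : y + c - y = c := by abel
  rw [this]
  exact hc

/-- If a natural number vanishes in the division ring, it vanishes in `R`. -/
theorem cast_eq_zero_of (f : LatticeHom (Submodule R (Fin 3 → R)) (Submodule D V))
    (hf : Function.Injective f) (n : ℕ) (hn : (n : D) = 0) : (n : R) = 0 := by
  have h1 : f (cyc ![1, 0, 0]) ≤ f (cyc (g n : Fin 3 → R)) := by
    intro x hx
    obtain ⟨y, hy, hxy⟩ := exists_right f hx
    have h := key f hx hy hxy n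
    have h0 : n • y = 0 := by
      rw [← Nat.cast_smul_eq_nsmul D, hn, zero_smul]
    rwa [h0, sub_zero] at h
  have h2 : f (cyc ![1, 0, 0] ⊓ cyc (g n : Fin 3 → R)) = f (cyc ![1, 0, 0]) := by
    rw [map_inf]; exact inf_eq_left.mpr h1
  have h3 := inf_eq_left.mp (hf h2)
  rw [cyc_le, mem_cyc] at h3
  obtain ⟨a, ha⟩ := h3
  have ha0 := congrFun ha 0
  have ha1 := congrFun ha 1
  simp [g] at ha0 ha1
  subst ha0
  simpa using ha1

/-- If a natural number is nonzero in the division ring, it is invertible in `R`. -/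
theorem isUnit_cast_of (f : LatticeHom (Submodule R (Fin 3 → R)) (Submodule D V))
    (hf : Function.Injective f) (n : ℕ) (hn : (n : D) ≠ 0) : IsUnit (n : R) := by
  have h1 : f (cyc ![0, 1, 0]) ≤ f (cyc ![1, 0, 0] ⊔ cyc (g n : Fin 3 → R)) := by
    intro y hy
    obtain ⟨x, hx, hxy⟩ := exists_left f hy
    have h := key f hx hy hxy n
    rw [map_sup]
    have h0 : y = (n : D)⁻¹ • (x + (-(x - n • y))) := by
      have : x + (-(x - n • y)) = (n : D) • y := by
        rw [Nat.cast_smul_eq_nsmul D]; abel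
      rw [this, smul_smul, inv_mul_cancel₀ hn, one_smul]
    rw [h0]
    exact smul_mem _ _ (add_mem_sup hx (neg_mem h))
  have h2 : f (cyc ![0, 1, 0] ⊓ (cyc ![1, 0, 0] ⊔ cyc (g n : Fin 3 → R))) = f (cyc ![0, 1, 0]) := by
    rw [map_inf]; exact inf_eq_left.mpr h1
  have h3 := inf_eq_left.mp (hf h2)
  rw [cyc_le, mem_sup] at h3
  obtain ⟨a, ha, b, hb, hab⟩ := h3
  rw [mem_cyc] at ha hb
  obtain ⟨a, rfl⟩ := ha
  obtain ⟨b, rfl⟩ := hb
  have h1 := congrFun hab 1
  simp [g] at h1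
  have h5 : (-b) * (n : R) = 1 := by rw [neg_mul]; exact h1
  have h6 : (n : R) * (-b) = 1 := by rw [Nat.cast_comm]; exact h5
  exact ⟨⟨(n : R), -b, h6, h5⟩, rfl⟩

end embedding

end Pool.Agent.W411.Frame
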