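import Mathlib
import Pool.Agent.W411.Frame

/-!
For an abelian group `A`, the subgroup lattice of `A × A × A` embeds into the subspace lattice
of some vector space over some division ring iff `A` is an elementary abelian `p`-group.
In particular `Sub((Z/4)^3)` admits no such embedding.
-/

namespace Pool.Agent.W411.Cube

open Pool.Agent.W411.Frame

universe u v w

/-- The homomorphism `Z/n → A` given by an element of order `n`. -/
noncomputable def ofElt {A : Type*} [AddCommGroup A] (a : A) : ZMod (addOrderOf a) →+ A :=
  ZMod.lift (addOrderOf a) ⟨zmultiplesHom A a, by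
    simp [zmultiplesHom_apply, addOrderOf_nsmul_eq_zero]⟩

theorem ofElt_injective {A : Type*} [AddCommGroup A] (a : A) : Function.Injective (ofElt a) := by
  rw [ofElt, ZMod.lift_injective]
  intro m hm
  simp only [zmultiplesHom_apply] at hm
  rw [ZMod.intCast_zmod_eq_zero_iff_dvd]
  exact addOrderOf_dvd_iff_zsmul_eq_zero.mpr hm

/-- The induced lattice embedding of submodule lattices of cubes. -/
noncomputable def cubeHom {A : Type*} [AddCommGroup A] (a : A) :
    LatticeHom (Submodule (ZMod (addOrderOf a)) (Fin 3 → ZMod (addOrderOf a)))
      (AddSubgroup (Fin 3 → A)) where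
  toFun M := M.toAddSubgroup.map ((ofElt a).compLeft (Fin 3))
  map_sup' M N := by
    have h : (M ⊔ N).toAddSubgroup = M.toAddSubgroup ⊔ N.toAddSubgroup :=
      (AddSubgroup.toZModSubmodule (M := Fin 3 → ZMod (addOrderOf a)) (addOrderOf a)).symm.map_sup M N
    rw [h, AddSubgroup.map_sup]
  map_inf' M N := by
    have h : (M ⊓ N).toAddSubgroup = M.toAddSubgroup ⊓ N.toAddSubgroup := rfl
    rw [h, AddSubgroup.map_inf]
    intro x y hxy
    ext i
    exact ofElt_injective a (congrFun hxy i)

theorem cubeHom_injective {A : Type*} [AddCommGroup A] (a : A) :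
    Function.Injective (cubeHom a) := by
  intro M N h
  have hi : Function.Injective ((ofElt a).compLeft (Fin 3)) := by
    intro x y hxy
    ext i
    exact ofElt_injective a (congrFun hxy i)
  have h1 := AddSubgroup.map_injective hi h
  exact Submodule.toAddSubgroup_injective h1

theorem cube_embeds_iff (A : Type w) [AddCommGroup A] :
    (∃ (D : Type u) (_ : DivisionRing D) (V : Type (max v w)) (_ : AddCommGroup V)
        (_ : Module D V) (f : LatticeHom (AddSubgroup (Fin 3 → A)) (Submodule D V)),
        Function.Injective f) ↔
    ∃ p : ℕ, p.Prime ∧ ∀ a : A, p • a = 0 := by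
  constructor
  · rintro ⟨D, _, V, _, _, f, hf⟩
    rcases subsingleton_or_nontrivial A with hA | hA
    · exact ⟨2, Nat.prime_two, fun a => Subsingleton.elim _ _⟩
    · have key : ∀ a : A, ∀ n : ℕ, (n : D) = 0 → ((n : ℕ) : ZMod (addOrderOf a)) = 0 := by
        intro a n hn
        exact cast_eq_zero_of (f.comp (cubeHom a)) (hf.comp (cubeHom_injective a)) n hn
      have key2 : ∀ a : A, ∀ n : ℕ, (n : D) ≠ 0 → IsUnit ((n : ℕ) : ZMod (addOrderOf a)) := by
        intro a n hn
        exact isUnit_cast_of (f.comp (cubeHom a)) (hf.comp (cubeHom_injective a)) n hn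
      have hp : ringChar D ≠ 0 := by
        intro h0
        have h00 : ∀ n : ℕ, n ≠ 0 → (n : D) ≠ 0 := by
          intro n hn hnD
          have := (ringChar.spec D n).mp hnD
          rw [h0] at this
          exact hn (Nat.eq_zero_of_zero_dvd this)
        obtain ⟨a, ha⟩ := exists_ne (0 : A)
        have ha1 : addOrderOf a ≠ 1 := by
          intro h1
          exact ha (AddMonoid.addOrderOf_eq_one_iff.mp h1)
        rcases Nat.eq_zero_or_pos (addOrderOf a) with hz | hpos
        · have h2 := key2 a 2 (h00 2 two_ne_zero)
          rw [hz] at h2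
          have h3 : IsUnit (2 : ℤ) := h2
          rw [Int.isUnit_iff] at h3
          omega
        · have h2 := key2 a (addOrderOf a) (h00 _ hpos.ne')
          rw [ZMod.natCast_self] at h2
          have : Fact (1 < addOrderOf a) := ⟨by omega⟩
          exact not_isUnit_zero h2
      refine ⟨ringChar D, ?_, ?_⟩
      · exact (CharP.char_is_prime_or_zero D (ringChar D)).resolve_right hp
      · intro a
        have h1 := key a (ringChar D) ringChar.Nat.cast_ringChar
        rw [ZMod.natCast_eq_zero_iff] at h1
        exact addOrderOf_dvd_iff_nsmul_eq_zero.mp h1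
  · rintro ⟨p, hp, hA⟩
    have : Fact p.Prime := ⟨hp⟩
    let : Module (ZMod p) A := AddCommGroup.zmodModule hA
    refine ⟨ULift.{u} (ZMod p), inferInstance, ULift.{v} (Fin 3 → A), inferInstance,
      inferInstance, 
      { toFun := fun H =>
          { carrier := {x | x.down ∈ H}
            add_mem' := fun {x y} hx hy => by
              simp only [Set.mem_ofPred_eq, ULift.add_down] at *
              exact add_mem hx hy
            zero_mem' := by
              simp only [Set.mem_ofPred_eq, ULift.zero_down]
              exact zero_mem H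
            smul_mem' := fun c x hx => by
              simp only [Set.mem_ofPred_eq] at *
              exact ZMod.smul_mem (n := p) hx c.down }
        map_sup' := ?_
        map_inf' := ?_ }, ?_⟩
    · intro H K
      ext x
      rw [Submodule.mem_sup]
      constructor
      · intro hx
        have hx' : x.down ∈ H ⊔ K := hx
        rw [AddSubgroup.mem_sup] at hx'
        obtain ⟨y, hy, z, hz, hyz⟩ := hx'
        exact ⟨ULift.up y, hy, ULift.up z, hz, by ext1; exact hyz⟩
      · rintro ⟨y, hy, z, hz, rfl⟩
        exact AddSubgroup.add_mem_sup (G := Fin 3 → A) hy hz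
    · intro H K
      rfl
    · intro H K h
      ext x
      have := SetLike.ext_iff.mp h (ULift.up x)
      exact this

end Pool.Agent.W411.Cube
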