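import Mathlib

/-!
An ultraproduct of the subgroup lattices of `(Z/p^2)^3`, over the primes `p`, embeds into the
subspace lattice of a vector space over the rational numbers.
-/

namespace Pool.Agent.W411.UltraSub

open Filter

/-- A nonprincipal ultrafilter on the set of primes. -/
noncomputable def U : Ultrafilter Nat.Primes := hyperfilter Nat.Primes

theorem eventually_gt (n : ℕ) : ∀ᶠ p : Nat.Primes in (U : Filter Nat.Primes), n < (p : ℕ) := by
  have h : (U : Filter Nat.Primes) ≤ cofinite := hyperfilter_le_cofinite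
  have h2 : {p : Nat.Primes | ¬ n < (p : ℕ)} ⊆ (fun p : Nat.Primes => (p : ℕ)) ⁻¹' (Set.Iic n) := by
    intro p hp
    exact not_lt.mp hp
  have h3 : ∀ᶠ p : Nat.Primes in cofinite, n < (p : ℕ) :=
    eventually_cofinite.mpr
      ((Set.Finite.preimage (Nat.Primes.coe_nat_injective.injOn) (Set.finite_Iic n)).subset h2)
  exact h3.filter_mono h

/-- The ring of integers modulo the square of a prime. -/
abbrev Z (p : Nat.Primes) : Type := ZMod ((p : ℕ) ^ 2)

/-- The group `(Z/p^2)^3`. -/
abbrev M (p : Nat.Primes) : Type := Fin 3 → Z p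

/-- The ideal of sequences that vanish almost everywhere. -/
def I : Ideal (∀ p, Z p) where
  carrier := {x | ∀ᶠ p in (U : Filter Nat.Primes), x p = 0}
  add_mem' := by
    intro x y hx hy
    filter_upwards [hx, hy] with p h1 h2
    simp [h1, h2]
  zero_mem' := by
    simp
  smul_mem' := by
    intro c x hx
    filter_upwards [hx] with p h1
    simp [h1]

/-- The ultraproduct of the rings `Z/p^2`. -/
abbrev R : Type := (∀ p, Z p) ⧸ I

theorem mk_eq_mk {x y : ∀ p, Z p} : (Ideal.Quotient.mk I x = Ideal.Quotient.mk I y) ↔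
    ∀ᶠ p in (U : Filter Nat.Primes), x p = y p := by
  rw [Ideal.Quotient.mk_eq_mk_iff_sub_mem]
  constructor
  · intro h
    filter_upwards [show ∀ᶠ p in (U : Filter Nat.Primes), (x - y) p = 0 from h] with p hp
    exact sub_eq_zero.mp hp
  · intro h
    change ∀ᶠ p in (U : Filter Nat.Primes), (x - y) p = 0
    filter_upwards [h] with p hp
    simp [hp]

theorem isUnit_int_of (b : ℤ) (hb : b ≠ 0) (p : Nat.Primes) (hp : b.natAbs < (p : ℕ)) :
    IsUnit (b : Z p) := by
  rw [ZMod.coe_int_isUnit_iff_isCoprime]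
  have h1 : IsCoprime ((p : ℕ) : ℤ) b := by
    rw [Int.isCoprime_iff_nat_coprime, Int.natAbs_natCast]
    rw [Nat.Prime.coprime_iff_not_dvd p.2]
    intro h
    have := Nat.le_of_dvd (Int.natAbs_pos.mpr hb) h
    omega
  push_cast
  exact IsCoprime.pow_left h1

theorem isUnit_int (b : ℤ) (hb : b ≠ 0) : IsUnit (b : R) := by
  classical
  have h : ∀ p : Nat.Primes, ∃ c : Z p, b.natAbs < (p : ℕ) → (b : Z p) * c = 1 := by
    intro p
    by_cases hp : b.natAbs < (p : ℕ)
    · obtain ⟨u, hu⟩ := isUnit_int_of b hb p hp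
      refine ⟨(u⁻¹ : (Z p)ˣ), fun _ => ?_⟩
      rw [← hu]
      exact u.mul_inv
    · exact ⟨0, fun h => absurd h hp⟩
  choose c hc using h
  have h2 : (b : R) * Ideal.Quotient.mk I c = 1 := by
    have h3 : (b : R) = Ideal.Quotient.mk I (b : ∀ p, Z p) := by simp
    rw [h3, ← map_mul, ← map_one (Ideal.Quotient.mk I), mk_eq_mk]
    filter_upwards [eventually_gt b.natAbs] with p hp
    exact hc p hp
  exact IsUnit.of_mul_eq_one _ h2

/-- The ring homomorphism from the rational numbers. -/
noncomputable def ratHom : ℚ →+* R :=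
  IsLocalization.lift (M := nonZeroDivisors ℤ) (S := ℚ) (g := Int.castRingHom R)
    (fun y => isUnit_int _ (nonZeroDivisors.ne_zero y.2))

/-- The vector space. -/
abbrev W : Type := Fin 3 → R

noncomputable instance : Module ℚ W := Module.compHom W ratHom

/-- The class of a sequence of vectors. -/
def cls (x : ∀ p, M p) : W := fun j => Ideal.Quotient.mk I (fun p => x p j)

theorem cls_surjective : Function.Surjective cls := by
  intro w
  have h : ∀ j, ∃ y : ∀ p, Z p, Ideal.Quotient.mk I y = w j :=
    fun j => Ideal.Quotient.mk_surjective (w j)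
  choose y hy using h
  exact ⟨fun p j => y j p, funext hy⟩

theorem cls_eq {x y : ∀ p, M p} : cls x = cls y ↔ ∀ᶠ p in (U : Filter Nat.Primes), x p = y p := by
  constructor
  · intro h
    have h' : ∀ j, ∀ᶠ p in (U : Filter Nat.Primes), x p j = y p j := fun j =>
      mk_eq_mk.mp (congrFun h j)
    rw [← eventually_all] at h'
    filter_upwards [h'] with p hp
    exact funext hp
  · intro h
    funext j
    apply mk_eq_mk.mpr
    filter_upwards [h] with p hp
    exact congrFun hp j

theorem cls_add (x y : ∀ p, M p) : cls (x + y) = cls x + cls y := rfl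

theorem cls_zsmul (n : ℤ) (x : ∀ p, M p) : cls (n • x) = n • cls x := by
  funext j
  change Ideal.Quotient.mk I (n • (fun p => x p j)) = n • Ideal.Quotient.mk I (fun p => x p j)
  rw [map_zsmul]

/-- The subspace attached to a family of subgroups. -/
noncomputable def star (H : ∀ p, AddSubgroup (M p)) : Submodule ℚ W where
  carrier := {w | ∃ x, cls x = w ∧ ∀ᶠ p in (U : Filter Nat.Primes), x p ∈ H p}
  add_mem' := by
    rintro _ _ ⟨x, rfl, hx⟩ ⟨y, rfl, hy⟩
    refine ⟨x + y, rfl, ?_⟩
    filter_upwards [hx, hy] with p h1 h2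
    exact add_mem h1 h2
  zero_mem' := ⟨0, rfl, by simp [zero_mem]⟩
  smul_mem' := by
    rintro q _ ⟨x, rfl, hx⟩
    obtain ⟨y, hy⟩ := cls_surjective (q • cls x)
    refine ⟨y, hy, ?_⟩
    have h1 : ((q.den : ℤ)) • cls y = q.num • cls x := by
      rw [hy, ← Int.cast_smul_eq_zsmul ℚ, ← Int.cast_smul_eq_zsmul ℚ, smul_smul]
      congr 1
      push_cast
      exact Rat.den_mul_eq_num q
    rw [← cls_zsmul, ← cls_zsmul, cls_eq] at h1
    filter_upwards [h1, hx, eventually_gt q.den] with p h2 h3 h4
    have h5 : IsUnit (((q.den : ℤ)) : Z p) :=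
      isUnit_int_of _ (by exact_mod_cast q.den_ne_zero) p (by simpa using h4)
    obtain ⟨u, hu⟩ := h5
    obtain ⟨c, hc⟩ := ZMod.intCast_surjective ((u⁻¹ : (Z p)ˣ) : Z p)
    have h6 : y p = (c * q.num) • x p := by
      have h7 : (c * (q.den : ℤ)) • y p = y p := by
        rw [← Int.cast_smul_eq_zsmul (Z p)]
        push_cast
        have h8 : (c : Z p) * ((q.den : ℤ) : Z p) = 1 := by
          rw [hc, ← hu]; exact u.inv_mul
        have h9 : (c : Z p) * (q.den : Z p) = 1 := by exact_mod_cast h8
        rw [h9, one_smul]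
      rw [← h7, mul_smul, mul_smul]
      congr 1
    rw [h6]
    exact zsmul_mem h3 _

theorem cls_mem_star {H : ∀ p, AddSubgroup (M p)} {x : ∀ p, M p} :
    cls x ∈ star H ↔ ∀ᶠ p in (U : Filter Nat.Primes), x p ∈ H p := by
  constructor
  · rintro ⟨y, hy, h⟩
    rw [cls_eq] at hy
    filter_upwards [hy, h] with p h1 h2
    rwa [← h1]
  · intro h
    exact ⟨x, rfl, h⟩

theorem star_le_star {H K : ∀ p, AddSubgroup (M p)} :
    star H ≤ star K ↔ ∀ᶠ p in (U : Filter Nat.Primes), H p ≤ K p := by
  classical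
  constructor
  · intro h
    by_contra hne
    rw [← Ultrafilter.eventually_not] at hne
    have hx : ∀ p, ∃ x : M p, ¬ H p ≤ K p → x ∈ H p ∧ x ∉ K p := by
      intro p
      by_cases hp : H p ≤ K p
      · exact ⟨0, fun h => absurd hp h⟩
      · obtain ⟨x, h1, h2⟩ := SetLike.not_le_iff_exists.mp hp
        exact ⟨x, fun _ => ⟨h1, h2⟩⟩
    choose x hx using hx
    have h1 : cls x ∈ star H := by
      rw [cls_mem_star]
      filter_upwards [hne] with p hp
      exact (hx p hp).1
    have h2 := h h1
    rw [cls_mem_star] at h2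
    obtain ⟨p, h4, h5⟩ := (h2.and hne).exists
    exact (hx p h5).2 h4
  · intro h w hw
    obtain ⟨x, rfl, hx⟩ := hw
    rw [cls_mem_star]
    filter_upwards [h, hx] with p h1 h2
    exact h1 h2

theorem star_inj {H K : ∀ p, AddSubgroup (M p)} :
    star H = star K ↔ ∀ᶠ p in (U : Filter Nat.Primes), H p = K p := by
  constructor
  · intro h
    filter_upwards [star_le_star.mp h.le, star_le_star.mp h.ge] with p h1 h2
    exact le_antisymm h1 h2
  · intro h
    apply le_antisymm
    · rw [star_le_star]
      filter_upwards [h] with p hp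
      exact hp.le
    · rw [star_le_star]
      filter_upwards [h] with p hp
      exact hp.ge

theorem star_inf (H K : ∀ p, AddSubgroup (M p)) :
    star (fun p => H p ⊓ K p) = star H ⊓ star K := by
  ext w
  obtain ⟨x, rfl⟩ := cls_surjective w
  rw [Submodule.mem_inf, cls_mem_star, cls_mem_star, cls_mem_star, ← eventually_and]
  rfl

theorem star_sup (H K : ∀ p, AddSubgroup (M p)) :
    star (fun p => H p ⊔ K p) = star H ⊔ star K := by
  classical
  apply le_antisymm
  · intro w hw
    obtain ⟨x, rfl⟩ := cls_surjective w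
    rw [cls_mem_star] at hw
    have h : ∀ p, ∃ y z : M p, x p ∈ H p ⊔ K p → y ∈ H p ∧ z ∈ K p ∧ y + z = x p := by
      intro p
      by_cases hp : x p ∈ H p ⊔ K p
      · obtain ⟨y, hy, z, hz, h⟩ := AddSubgroup.mem_sup.mp hp
        exact ⟨y, z, fun _ => ⟨hy, hz, h⟩⟩
      · exact ⟨0, 0, fun h => absurd h hp⟩
    choose y z h using h
    rw [Submodule.mem_sup]
    refine ⟨cls y, ?_, cls z, ?_, ?_⟩
    · rw [cls_mem_star]
      filter_upwards [hw] with p hp
      exact (h p hp).1
    · rw [cls_mem_star]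
      filter_upwards [hw] with p hp
      exact (h p hp).2.1
    · rw [← cls_add, cls_eq]
      filter_upwards [hw] with p hp
      exact (h p hp).2.2
  · rw [sup_le_iff]
    constructor
    · rw [star_le_star]
      exact Eventually.of_forall fun p => le_sup_left
    · rw [star_le_star]
      exact Eventually.of_forall fun p => le_sup_right

end Pool.Agent.W411.UltraSub
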